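import Pool.Agent.Helper23.MC.Goals4
import Pool.Agent.Helper54.CG.EB

/-!
# Packet BF: two ranges of primes, Bonferroni
-/

set_option autoImplicit false

open Finset Filter Topology

open scoped Classical

namespace Pool.Agent.Helper3.MC

open Pool.Agent.Helper88.PP (pr Rg QQ)
open Pool.Agent.Helper88.GM (NI XI)
open Pool.Agent.Helper88.CG (pw)
open Pool.Agent.Helper23.MC (PW StmtBF)
open Pool.Agent.Helper6.RR (el alt alt_bound el_le el_nonneg)
open Pool.Agent.Helper54.CG (crt_fin crt_two cnt_le pw_nonneg pw_le mem_pr' sum_card_le QQ_pos)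

/-- the indicator of `p ∣ n + i` for some `i ∈ B` -/
noncomputable def zz (B : Finset ℕ) (n p : ℕ) : ℝ := if ∃ i ∈ B, p ∣ n + i then 1 else 0

variable {B : Finset ℕ}

lemma zz_range (n p : ℕ) : 0 ≤ zz B n p ∧ zz B n p ≤ 1 := by
  unfold zz
  split_ifs <;> norm_num

lemma prod_zz (n : ℕ) (A : Finset ℕ) :
    ∏ p ∈ A, zz B n p = if ∀ p ∈ A, ∃ i ∈ B, p ∣ n + i then 1 else 0 := by
  split_ifs with h
  · apply prod_eq_one
    intro p hp
    unfold zz
    rw [if_pos (h p hp)]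
  · push Not at h
    obtain ⟨p, hp, h1⟩ := h
    apply prod_eq_zero hp
    unfold zz
    rw [if_neg]
    rintro ⟨i, hi, h2⟩
    exact h1 i hi h2

lemma prod_one_sub (n : ℕ) (S : Finset ℕ) :
    ∏ p ∈ S, (1 - zz B n p) = if ∀ i ∈ B, ∀ p ∈ S, ¬ p ∣ n + i then 1 else 0 := by
  split_ifs with h
  · apply prod_eq_one
    intro p hp
    unfold zz
    rw [if_neg]
    · norm_num
    · rintro ⟨i, hi, h2⟩
      exact h i hi p hp h2
  · push Not at h
    obtain ⟨i, hi, p, hp, h1⟩ := h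
    apply prod_eq_zero hp
    unfold zz
    rw [if_pos ⟨i, hi, h1⟩]
    norm_num

lemma zz_le (n p : ℕ) : zz B n p ≤ ∑ i ∈ B, if p ∣ n + i then (1 : ℝ) else 0 := by
  unfold zz
  split_ifs with h
  · obtain ⟨i, hi, h1⟩ := h
    calc (1 : ℝ) = if p ∣ n + i then (1 : ℝ) else 0 := by rw [if_pos h1]
      _ ≤ _ := single_le_sum (f := fun i => if p ∣ n + i then (1 : ℝ) else 0)
        (fun i _ => by positivity) hi
  · exact sum_nonneg fun i _ => by positivity

/-- counting -/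
lemma cnt {x y z b : ℕ} (hlog : Real.log x ≤ y) (hb : b < QQ x)
    {A : Finset ℕ} (hA : A ⊆ pr y z) :
    ∑ n ∈ NI (x / 32) x (QQ x) b, ∏ p ∈ A, zz B n p ≤
      (B.card : ℝ) ^ A.card * (XI (x / 32) x (QQ x) * ∏ p ∈ A, 1 / (p : ℝ) + 1) := by
  have hprime : ∀ p ∈ A, p.Prime := fun p hp => (mem_pr' (hA hp)).2.2
  have hpy : ∀ p ∈ A, y < p := fun p hp => (mem_pr' (hA hp)).1
  have hQp : ∀ p : ℕ, p.Prime → p ∣ QQ x → p ≤ y := by
    intro p hp h
    have h1 : p ≤ ⌊Real.log x / 20⌋₊ := hp.dvd_primorial_iff.1 h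
    have h0 : 0 ≤ Real.log (x : ℝ) := Real.log_natCast_nonneg x
    have h2 : ((⌊Real.log x / 20⌋₊ : ℕ) : ℝ) ≤ Real.log x / 20 := Nat.floor_le (by positivity)
    have h3 : (p : ℝ) ≤ y := by
      have : (p : ℝ) ≤ ((⌊Real.log x / 20⌋₊ : ℕ) : ℝ) := by exact_mod_cast h1
      linarith
    exact_mod_cast h3
  have hAQ : ∀ p ∈ A, Nat.Coprime (QQ x) p := by
    intro p hp
    rw [Nat.coprime_comm, (hprime p hp).coprime_iff_not_dvd]
    intro h
    have h1 := hQp p (hprime p hp) h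
    have h2 := hpy p hp
    omega
  have hQA : Nat.Coprime (QQ x) (∏ p ∈ A, p) := Nat.Coprime.prod_right hAQ
  have hA0 : 0 < ∏ p ∈ A, p := prod_pos (fun p hp => (hprime p hp).pos)
  have hM : 0 < QQ x * ∏ p ∈ A, p := Nat.mul_pos (QQ_pos x) hA0
  -- one function
  have hone : ∀ f : (∀ p ∈ A, ℕ), ∑ n ∈ NI (x / 32) x (QQ x) b,
      ∏ p ∈ A.attach, (if (p : ℕ) ∣ n + f p.1 p.2 then (1 : ℝ) else 0) ≤
        XI (x / 32) x (QQ x) * ∏ p ∈ A, 1 / (p : ℝ) + 1 := by
    intro f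
    obtain ⟨cA, hcA⟩ := crt_fin A.attach (fun p => (p : ℕ)) (fun p => (f p.1 p.2 : ℕ))
      (fun p _ => (hprime p.1 p.2).pos) (fun p _ p' _ hne => by
        rw [Nat.coprime_primes (hprime p.1 p.2) (hprime p'.1 p'.2)]
        intro h
        exact hne (Subtype.ext h))
    have hprodA : ∏ p ∈ A.attach, (p : ℕ) = ∏ p ∈ A, p := prod_attach A (fun p => p)
    rw [hprodA] at hcA
    obtain ⟨c, hc⟩ := crt_two hQA b cA
    have h1 : ∀ n, ∏ p ∈ A.attach, (if (p : ℕ) ∣ n + f p.1 p.2 then (1 : ℝ) else 0) =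
        if n ≡ cA [MOD ∏ p ∈ A, p] then 1 else 0 := by
      intro n
      split_ifs with h
      · apply prod_eq_one
        intro p hp
        rw [if_pos ((hcA n).2 h p hp)]
      · have h2 : ∃ p ∈ A.attach, ¬ (p : ℕ) ∣ n + f p.1 p.2 := by
          by_contra h3
          push Not at h3
          exact h ((hcA n).1 h3)
        obtain ⟨p, hp, h2⟩ := h2
        apply prod_eq_zero hp
        rw [if_neg h2]
    simp only [h1]
    rw [← sum_filter, sum_const, nsmul_eq_mul, mul_one]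
    have h2 : (NI (x / 32) x (QQ x) b).filter (fun n => n ≡ cA [MOD ∏ p ∈ A, p]) ⊆
        (Ioc (x / 32) x).filter (fun n => n ≡ c [MOD QQ x * ∏ p ∈ A, p]) := by
      intro n hn
      unfold NI at hn
      rw [mem_filter, mem_filter] at hn
      rw [mem_filter]
      refine ⟨hn.1.1, (hc n).1 ⟨?_, hn.2⟩⟩
      show n % QQ x = b % QQ x
      rw [hn.1.2, Nat.mod_eq_of_lt hb]
    have h3 : (((NI (x / 32) x (QQ x) b).filter
        (fun n => n ≡ cA [MOD ∏ p ∈ A, p])).card : ℝ) ≤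
        (((Ioc (x / 32) x).filter (fun n => n ≡ c [MOD QQ x * ∏ p ∈ A, p])).card : ℝ) := by
      exact_mod_cast card_le_card h2
    refine h3.trans ((cnt_le (Nat.div_le_self x 32) hM).trans_eq ?_)
    congr 1
    unfold XI
    push_cast
    rw [prod_div_distrib, prod_const_one, div_mul_div_comm, mul_one]
  -- expansion
  have hexp : ∀ n, ∏ p ∈ A, zz B n p ≤ ∑ f ∈ A.pi (fun _ => B),
      ∏ p ∈ A.attach, (if (p : ℕ) ∣ n + f p.1 p.2 then (1 : ℝ) else 0) := by
    intro n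
    refine (prod_le_prod (fun p _ => (zz_range n p).1) (fun p _ => zz_le n p)).trans_eq ?_
    rw [prod_sum]
  calc ∑ n ∈ NI (x / 32) x (QQ x) b, ∏ p ∈ A, zz B n p
      ≤ ∑ n ∈ NI (x / 32) x (QQ x) b, ∑ f ∈ A.pi (fun _ => B),
          ∏ p ∈ A.attach, (if (p : ℕ) ∣ n + f p.1 p.2 then (1 : ℝ) else 0) :=
        sum_le_sum fun n _ => hexp n
    _ = ∑ f ∈ A.pi (fun _ => B), ∑ n ∈ NI (x / 32) x (QQ x) b,
          ∏ p ∈ A.attach, (if (p : ℕ) ∣ n + f p.1 p.2 then (1 : ℝ) else 0) := sum_comm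
    _ ≤ ∑ f ∈ A.pi (fun _ => B), (XI (x / 32) x (QQ x) * ∏ p ∈ A, 1 / (p : ℝ) + 1) :=
        sum_le_sum fun f _ => hone f
    _ = _ := by
        rw [sum_const, card_pi, prod_const, nsmul_eq_mul]
        push_cast
        ring

lemma XI_nonneg (u v Q : ℕ) : 0 ≤ XI u v Q := by
  unfold XI
  positivity

lemma disj {y y₂ z : ℕ} {A₁ A₂ : Finset ℕ} (h1 : A₁ ⊆ pr y y₂) (h2 : A₂ ⊆ pr y₂ z) :
    Disjoint A₁ A₂ := by
  rw [Finset.disjoint_left]
  intro p hp hp'
  have h3 := (mem_pr' (h1 hp)).2.1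
  have h4 := (mem_pr' (h2 hp')).1
  omega

lemma pr_mono {y y₂ z : ℕ} (h1 : y ≤ y₂) (h2 : y₂ ≤ z) : pr y y₂ ⊆ pr y z ∧ pr y₂ z ⊆ pr y z := by
  unfold pr
  constructor
  · intro p hp
    rw [mem_filter, mem_Ioc] at hp ⊢
    exact ⟨⟨hp.1.1, hp.1.2.trans h2⟩, hp.2⟩
  · intro p hp
    rw [mem_filter, mem_Ioc] at hp ⊢
    exact ⟨⟨lt_of_le_of_lt h1 hp.1.1, hp.1.2⟩, hp.2⟩

lemma pr_union {y y₂ z : ℕ} (h1 : y ≤ y₂) (h2 : y₂ ≤ z) : pr y y₂ ∪ pr y₂ z = pr y z := by
  unfold pr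
  ext p
  simp only [mem_union, mem_filter, mem_Ioc]
  constructor
  · rintro (⟨⟨h3, h4⟩, h5⟩ | ⟨⟨h3, h4⟩, h5⟩)
    · exact ⟨⟨h3, h4.trans h2⟩, h5⟩
    · exact ⟨⟨lt_of_le_of_lt h1 h3, h4⟩, h5⟩
  · rintro ⟨⟨h3, h4⟩, h5⟩
    rcases le_or_gt p y₂ with h6 | h6
    · exact Or.inl ⟨⟨h3, h6⟩, h5⟩
    · exact Or.inr ⟨⟨h6, h4⟩, h5⟩

lemma card_pr_le (y z : ℕ) : (pr y z).card ≤ z := by
  unfold pr
  calc ((Ioc y z).filter Nat.Prime).card ≤ (Ioc y z).card := card_filter_le _ _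
    _ = z - y := Nat.card_Ioc y z
    _ ≤ z := Nat.sub_le z y

/-- the alternating sum in terms of subsets -/
lemma alt_eq (n r : ℕ) (S : Finset ℕ) : alt (zz B n) r S =
    ∑ A ∈ S.powerset.filter (fun A => A.card ≤ r), (-1 : ℝ) ^ A.card * ∏ p ∈ A, zz B n p := by
  rw [← sum_card_le]
  unfold alt el
  apply sum_congr rfl
  intro j _
  rw [mul_sum]
  apply sum_congr rfl
  intro A hA
  rw [(mem_powersetCard.1 hA).2]

lemma choose_le {S : Finset ℕ} {z k : ℕ} (h : S.card ≤ z) :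
    ((S.card.choose k : ℕ) : ℝ) ≤ (z : ℝ) ^ k := by
  calc ((S.card.choose k : ℕ) : ℝ) ≤ ((S.card ^ k : ℕ) : ℝ) := by
        exact_mod_cast Nat.choose_le_pow _ _
    _ = (S.card : ℝ) ^ k := by push_cast; ring
    _ ≤ (z : ℝ) ^ k := pow_le_pow_left₀ (by positivity) (by exact_mod_cast h) _

/-- **Packet BF.** -/
theorem bf : StmtBF := by
  intro x y y₂ z b j r hx hlog hyy hyz hz hb B hB S hS hS1
  have hx0 : 0 < x := by omega
  obtain ⟨hs1, hs2⟩ := pr_mono hyy hyz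
  set N := NI (x / 32) x (QQ x) b with hN
  set X := XI (x / 32) x (QQ x) with hX
  have hX0 : 0 ≤ X := XI_nonneg _ _ _
  set S1 := pr y y₂ with hS1d
  set S2 := pr y₂ z with hS2d
  set D : ℝ := S ^ (r + 1) / (r + 1).factorial with hD
  set β : ℝ := (B.card : ℝ) with hβ
  have hβ0 : 0 ≤ β := by positivity
  -- the reciprocals
  have hrec : ∀ T : Finset ℕ, T ⊆ pr y z → 0 ≤ β ^ (r + 1) * el (fun p : ℕ => 1 / (p : ℝ)) (r + 1) T ∧
      β ^ (r + 1) * el (fun p : ℕ => 1 / (p : ℝ)) (r + 1) T ≤ D := by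
    intro T hT
    constructor
    · exact mul_nonneg (by positivity) (el_nonneg (fun p _ => by positivity) _)
    · have h3 := el_le (x := fun p : ℕ => 1 / (p : ℝ)) T (fun p _ => by positivity) (r + 1)
      calc β ^ (r + 1) * el (fun p : ℕ => 1 / (p : ℝ)) (r + 1) T ≤
          β ^ (r + 1) * ((∑ p ∈ T, 1 / (p : ℝ)) ^ (r + 1) / (r + 1).factorial) :=
            mul_le_mul_of_nonneg_left h3 (by positivity)
        _ = (β * ∑ p ∈ T, 1 / (p : ℝ)) ^ (r + 1) / (r + 1).factorial := by rw [mul_pow]; ring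
        _ ≤ D := by
            rw [hD, hS]
            gcongr
  have hD0 : 0 ≤ D := (hrec ∅ (empty_subset _)).1.trans (hrec ∅ (empty_subset _)).2
  -- the sum of `E_m`
  have hE : ∀ T : Finset ℕ, T ⊆ pr y z → ∑ n ∈ N, el (zz B n) (r + 1) T ≤
      X * D + (β * z) ^ (r + 1) := by
    intro T hT
    have hc : T.card ≤ z := (card_le_card hT).trans (card_pr_le y z)
    unfold el
    rw [sum_comm]
    calc ∑ A ∈ T.powersetCard (r + 1), ∑ n ∈ N, ∏ p ∈ A, zz B n p
        ≤ ∑ A ∈ T.powersetCard (r + 1), β ^ (r + 1) * (X * ∏ p ∈ A, 1 / (p : ℝ) + 1) := by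
          apply sum_le_sum
          intro A hA
          rw [mem_powersetCard] at hA
          have h1 := cnt (B := B) (z := z) hlog hb (hA.1.trans hT)
          rw [hA.2] at h1
          exact h1
      _ = X * (β ^ (r + 1) * el (fun p : ℕ => 1 / (p : ℝ)) (r + 1) T) +
          β ^ (r + 1) * (T.card.choose (r + 1) : ℕ) := by
          rw [← mul_sum, sum_add_distrib, ← mul_sum, sum_const, card_powersetCard, nsmul_eq_mul]
          unfold el
          ring
      _ ≤ X * D + (β * z) ^ (r + 1) := by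
          rw [mul_pow]
          exact add_le_add (mul_le_mul_of_nonneg_left (hrec T hT).2 hX0)
            (mul_le_mul_of_nonneg_left (choose_le hc) (by positivity))
  -- the sum of `E_1 E_2`
  have hEE : ∑ n ∈ N, el (zz B n) (r + 1) S1 * el (zz B n) (r + 1) S2 ≤
      X * D + (β * z) ^ (2 * r + 2) := by
    have hc1 : S1.card ≤ z := (card_le_card hs1).trans (card_pr_le y z)
    have hc2 : S2.card ≤ z := (card_le_card hs2).trans (card_pr_le y z)
    have h0 : ∀ n, el (zz B n) (r + 1) S1 * el (zz B n) (r + 1) S2 =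
        ∑ A₁ ∈ S1.powersetCard (r + 1), ∑ A₂ ∈ S2.powersetCard (r + 1),
          ∏ p ∈ A₁ ∪ A₂, zz B n p := by
      intro n
      unfold el
      rw [sum_mul_sum]
      apply sum_congr rfl
      intro A₁ hA₁
      apply sum_congr rfl
      intro A₂ hA₂
      rw [prod_union (disj (mem_powersetCard.1 hA₁).1 (mem_powersetCard.1 hA₂).1)]
    simp only [h0]
    rw [sum_comm]
    have h1 : ∀ A₁ ∈ S1.powersetCard (r + 1), ∑ n ∈ N, ∑ A₂ ∈ S2.powersetCard (r + 1),
        ∏ p ∈ A₁ ∪ A₂, zz B n p ≤ ∑ A₂ ∈ S2.powersetCard (r + 1),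
          β ^ (2 * r + 2) * (X * ((∏ p ∈ A₁, 1 / (p : ℝ)) * ∏ p ∈ A₂, 1 / (p : ℝ)) + 1) := by
      intro A₁ hA₁
      rw [sum_comm]
      apply sum_le_sum
      intro A₂ hA₂
      rw [mem_powersetCard] at hA₁ hA₂
      have hd := disj hA₁.1 hA₂.1
      have h2 := cnt (B := B) (z := z) hlog hb
        (union_subset (hA₁.1.trans hs1) (hA₂.1.trans hs2))
      rw [card_union_of_disjoint hd, hA₁.2, hA₂.2, prod_union hd,
        show r + 1 + (r + 1) = 2 * r + 2 by ring] at h2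
      exact h2
    refine (sum_le_sum h1).trans ?_
    have h2 : ∑ A₁ ∈ S1.powersetCard (r + 1), ∑ A₂ ∈ S2.powersetCard (r + 1),
        β ^ (2 * r + 2) * (X * ((∏ p ∈ A₁, 1 / (p : ℝ)) * ∏ p ∈ A₂, 1 / (p : ℝ)) + 1) =
        X * ((β ^ (r + 1) * el (fun p : ℕ => 1 / (p : ℝ)) (r + 1) S1) *
          (β ^ (r + 1) * el (fun p : ℕ => 1 / (p : ℝ)) (r + 1) S2)) +
          β ^ (2 * r + 2) * ((S1.card.choose (r + 1) : ℕ) * (S2.card.choose (r + 1) : ℕ)) := by
      simp only [← mul_sum, sum_add_distrib, sum_const, card_powersetCard, nsmul_eq_mul, mul_one]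
      unfold el
      rw [← sum_mul, show 2 * r + 2 = (r + 1) + (r + 1) by ring, pow_add]
      ring
    rw [h2]
    apply add_le_add
    · apply mul_le_mul_of_nonneg_left _ hX0
      calc (β ^ (r + 1) * el (fun p : ℕ => 1 / (p : ℝ)) (r + 1) S1) *
            (β ^ (r + 1) * el (fun p : ℕ => 1 / (p : ℝ)) (r + 1) S2) ≤ D * 1 :=
          mul_le_mul (hrec S1 hs1).2 ((hrec S2 hs2).2.trans hS1) (hrec S2 hs2).1 hD0
        _ = D := mul_one D
    · rw [mul_pow]
      apply mul_le_mul_of_nonneg_left _ (by positivity)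
      calc ((S1.card.choose (r + 1) : ℕ) : ℝ) * (S2.card.choose (r + 1) : ℕ) ≤
          (z : ℝ) ^ (r + 1) * (z : ℝ) ^ (r + 1) :=
            mul_le_mul (choose_le hc1) (choose_le hc2) (by positivity) (by positivity)
        _ = (z : ℝ) ^ (2 * r + 2) := by ring
  -- the main term
  have hmain : ∑ A₁ ∈ S1.powerset.filter (fun A => A.card ≤ r),
      ∑ A₂ ∈ S2.powerset.filter (fun A => A.card ≤ r),
        (-1 : ℝ) ^ (A₁.card + A₂.card) * PW x b j B (A₁ ∪ A₂) =
      ∑ n ∈ N, pw x (n + j) * (alt (zz B n) r S1 * alt (zz B n) r S2) := by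
    have h1 : ∀ n ∈ N, pw x (n + j) * (alt (zz B n) r S1 * alt (zz B n) r S2) =
        ∑ A₁ ∈ S1.powerset.filter (fun A => A.card ≤ r),
          ∑ A₂ ∈ S2.powerset.filter (fun A => A.card ≤ r),
            (-1 : ℝ) ^ (A₁.card + A₂.card) * (pw x (n + j) * ∏ p ∈ A₁ ∪ A₂, zz B n p) := by
      intro n _
      rw [alt_eq, alt_eq, sum_mul_sum, mul_sum]
      apply sum_congr rfl
      intro A₁ hA₁
      rw [mul_sum]
      apply sum_congr rfl
      intro A₂ hA₂
      rw [mem_filter, mem_powerset] at hA₁ hA₂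
      rw [prod_union (disj hA₁.1 hA₂.1), pow_add]
      ring
    rw [sum_congr rfl h1]
    symm
    rw [sum_comm]
    apply sum_congr rfl
    intro A₁ _
    rw [sum_comm]
    apply sum_congr rfl
    intro A₂ _
    unfold PW
    rw [mul_sum]
    apply sum_congr rfl
    intro n _
    rw [prod_zz]
  have hind : ∀ n, (if ∀ i ∈ B, Rg y z (n + i) then pw x (n + j) else 0) =
      pw x (n + j) * ((∏ p ∈ S1, (1 - zz B n p)) * ∏ p ∈ S2, (1 - zz B n p)) := by
    intro n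
    rw [← prod_union (disj (Subset.refl S1) (Subset.refl S2)), hS1d, hS2d, pr_union hyy hyz,
      prod_one_sub]
    unfold Rg
    split_ifs <;> simp
  rw [hmain]
  simp only [hind]
  rw [← sum_sub_distrib]
  have hpt : ∀ n ∈ N, |pw x (n + j) * ((∏ p ∈ S1, (1 - zz B n p)) * ∏ p ∈ S2, (1 - zz B n p)) -
      pw x (n + j) * (alt (zz B n) r S1 * alt (zz B n) r S2)| ≤
      el (zz B n) (r + 1) S1 + el (zz B n) (r + 1) S2 +
        el (zz B n) (r + 1) S1 * el (zz B n) (r + 1) S2 := by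
    intro n _
    have b1 := alt_bound (x := zz B n) S1 (fun p _ => zz_range n p) r
    have b2 := alt_bound (x := zz B n) S2 (fun p _ => zz_range n p) r
    have e1 : 0 ≤ el (zz B n) (r + 1) S1 := el_nonneg (fun p _ => (zz_range n p).1) _
    have e2 : 0 ≤ el (zz B n) (r + 1) S2 := el_nonneg (fun p _ => (zz_range n p).1) _
    have a1 : 0 ≤ ∏ p ∈ S1, (1 - zz B n p) ∧ ∏ p ∈ S1, (1 - zz B n p) ≤ 1 :=
      ⟨prod_nonneg fun p _ => by linarith [(zz_range (B := B) n p).2],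
        prod_le_one (fun p _ => by linarith [(zz_range (B := B) n p).2])
          (fun p _ => by linarith [(zz_range (B := B) n p).1])⟩
    have a2 : 0 ≤ ∏ p ∈ S2, (1 - zz B n p) ∧ ∏ p ∈ S2, (1 - zz B n p) ≤ 1 :=
      ⟨prod_nonneg fun p _ => by linarith [(zz_range (B := B) n p).2],
        prod_le_one (fun p _ => by linarith [(zz_range (B := B) n p).2])
          (fun p _ => by linarith [(zz_range (B := B) n p).1])⟩
    set u1 := ∏ p ∈ S1, (1 - zz B n p)
    set u2 := ∏ p ∈ S2, (1 - zz B n p)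
    set t1 := alt (zz B n) r S1
    set t2 := alt (zz B n) r S2
    set g1 := el (zz B n) (r + 1) S1
    set g2 := el (zz B n) (r + 1) S2
    have ht2 : |t2| ≤ 1 + g2 := by
      have h1 : |t2| ≤ |u2| + |u2 - t2| := by
        have h := abs_sub u2 (u2 - t2)
        rwa [sub_sub_cancel] at h
      rw [abs_of_nonneg a2.1] at h1
      linarith [a2.2]
    have hd : |u1 * u2 - t1 * t2| ≤ g1 + g2 + g1 * g2 := by
      have h1 : u1 * u2 - t1 * t2 = (u1 - t1) * t2 + u1 * (u2 - t2) := by ring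
      rw [h1]
      have h2 := abs_add_le ((u1 - t1) * t2) (u1 * (u2 - t2))
      rw [abs_mul, abs_mul, abs_of_nonneg a1.1] at h2
      have h3 : |u1 - t1| * |t2| ≤ g1 * (1 + g2) := mul_le_mul b1 ht2 (abs_nonneg _) e1
      have h4 : u1 * |u2 - t2| ≤ 1 * g2 := mul_le_mul a1.2 b2 (abs_nonneg _) (by norm_num)
      linarith
    have hp0 := pw_nonneg x (n + j)
    have hp1 := pw_le hx0 (n + j)
    rw [← mul_sub, abs_mul, abs_of_nonneg hp0]
    calc pw x (n + j) * |u1 * u2 - t1 * t2| ≤ 1 * |u1 * u2 - t1 * t2| :=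
          mul_le_mul_of_nonneg_right hp1 (abs_nonneg _)
      _ ≤ _ := by rw [one_mul]; exact hd
  refine (abs_sum_le_sum_abs _ _).trans ((sum_le_sum hpt).trans ?_)
  rw [sum_add_distrib, sum_add_distrib]
  have h1 := hE S1 hs1
  have h2 := hE S2 hs2
  have h3 : (β * z) ^ (r + 1) ≤ (β * z) ^ (2 * r + 2) := by
    have hz0 : (β * z) = ((B.card * z : ℕ) : ℝ) := by rw [hβ]; push_cast; ring
    rw [hz0]
    rcases Nat.eq_zero_or_pos (B.card * z) with h | h
    · rw [h]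
      simp
    · apply pow_le_pow_right₀
      · exact_mod_cast h
      · omega
  linarith

end Pool.Agent.Helper3.MC
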